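import Pool.Agent.Helper87.SL.Goals

/-! Packet SL-LOW (project SL of helper87). -/

set_option autoImplicit false

open Finset

namespace Pool.Agent.Helper15.SL

open Pool.Agent.Helper87.SL Pool.Agent.Helper33.Schur

theorem gLOW : G_LOW := by
  intro hORD hDBL hCMP hCS k ε hε
  have hk1 : (0 : ℝ) < (k : ℝ) + 1 := by positivity
  obtain ⟨Q, n0, hQ⟩ := hCS k (ε / ((k : ℝ) + 1)) (div_pos hε hk1)
  refine ⟨max (max n0 Q) (max 1 ⌈12 * (Q : ℝ) / ε⌉₊), ?_⟩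
  intro n hn χ
  have hn0 : n0 ≤ n := le_trans (le_trans (le_max_left _ _) (le_max_left _ _)) hn
  have hnQ : Q ≤ n := le_trans (le_trans (le_max_right _ _) (le_max_left _ _)) hn
  have hn1 : 1 ≤ n := le_trans (le_trans (le_max_left _ _) (le_max_right _ _)) hn
  have hnC : ⌈12 * (Q : ℝ) / ε⌉₊ ≤ n := le_trans (le_trans (le_max_right _ _) (le_max_right _ _)) hn
  have hnE : 12 * (Q : ℝ) ≤ n * ε := by
    have h1 : 12 * (Q : ℝ) / ε ≤ n := le_trans (Nat.le_ceil _) (by exact_mod_cast hnC)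
    rwa [div_le_iff₀ hε] at h1
  obtain ⟨q, hq1, hqQ, hq⟩ := hQ n hn0 (fun c => (Icc 1 n).filter (fun x => χ x = c))
    (fun c => filter_subset _ _)
  refine ⟨q, n, fun a t => χ (mu q a t), hq1, hn1, ?_⟩
  have hdbl := hDBL k n q χ hq1 (le_trans hqQ hnQ)
  have hcmp := hCMP k n q χ
  have hord := (hORD k n χ).1
  have hsum : (∑ c : Fin k, ∑ m ∈ Icc 1 n,
      |(rep ((Icc 1 n).filter (fun x => χ x = c)) (m + q) : ℝ) -
        rep ((Icc 1 n).filter (fun x => χ x = c)) m|) ≤ ε * (n : ℝ) ^ 2 := by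
    calc _ ≤ ∑ _c : Fin k, ε / ((k : ℝ) + 1) * (n : ℝ) ^ 2 := Finset.sum_le_sum fun c _ => hq c
      _ = k * (ε / ((k : ℝ) + 1)) * (n : ℝ) ^ 2 := by
        rw [Finset.sum_const, Finset.card_univ, Fintype.card_fin, nsmul_eq_mul]
        ring
      _ ≤ ε * (n : ℝ) ^ 2 := by
        apply mul_le_mul_of_nonneg_right _ (by positivity)
        rw [← mul_div_assoc, div_le_iff₀ hk1]
        nlinarith
  have hnR : (1 : ℝ) ≤ n := by exact_mod_cast hn1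
  have hqR : (1 : ℝ) ≤ q := by exact_mod_cast hq1
  have hqQR : (q : ℝ) ≤ Q := by exact_mod_cast hqQ
  have hordR : (ordP χ n 0 : ℝ) ≤ 2 * schurMono χ n := by exact_mod_cast hord
  have hdblR : (cnt q n (fun a t => χ (mu q a t)) : ℝ) ≤
      (q : ℝ) ^ 2 * ((ordP χ n 0 : ℝ) + ordP χ n q) + 12 * (q : ℝ) ^ 3 * n := by
    exact_mod_cast hdbl
  have hden : (0 : ℝ) < 4 * (q : ℝ) ^ 2 * (n : ℝ) ^ 2 := by positivity
  unfold Helper87.SL.dens
  rw [div_le_iff₀ hden]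
  have hn2 : (0 : ℝ) < (n : ℝ) ^ 2 := by positivity
  have e1 : ((schurMono χ n : ℝ) / (n : ℝ) ^ 2 + ε) * (4 * (q : ℝ) ^ 2 * (n : ℝ) ^ 2) =
      (q : ℝ) ^ 2 * (4 * schurMono χ n + 4 * ε * (n : ℝ) ^ 2) := by
    field_simp
  rw [e1]
  have h12 : 12 * (q : ℝ) ^ 3 * n ≤ (q : ℝ) ^ 2 * (ε * (n : ℝ) ^ 2) := by
    have h13 : 12 * (q : ℝ) ≤ n * ε := le_trans (by linarith) hnE
    have h14 : 12 * (q : ℝ) * n ≤ ε * (n : ℝ) ^ 2 := by nlinarith
    calc 12 * (q : ℝ) ^ 3 * n = (q : ℝ) ^ 2 * (12 * (q : ℝ) * n) := by ring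
      _ ≤ _ := mul_le_mul_of_nonneg_left h14 (by positivity)
  have h15 : (q : ℝ) ^ 2 * ((ordP χ n 0 : ℝ) + ordP χ n q) ≤
      (q : ℝ) ^ 2 * (4 * schurMono χ n + ε * (n : ℝ) ^ 2) := by
    apply mul_le_mul_of_nonneg_left _ (by positivity)
    linarith
  have h16 : 0 ≤ (q : ℝ) ^ 2 * (2 * (ε * (n : ℝ) ^ 2)) := by positivity
  nlinarith

end Pool.Agent.Helper15.SL
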